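import Pool.Agent.H63.Cas1

set_option autoImplicit false

namespace Pool.Agent.Results.MP_466bd8_al.NoT2

open H63.Cas

theorem result : ∃ (X D : Type) (_ : TopologicalSpace X) (_ : MeasurableSpace X)
    (_ : TopologicalSpace D) (_ : MeasurableSpace D),
    T2Space X ∧ LocallyCompactSpace X ∧ SecondCountableTopology X ∧ BorelSpace X ∧
    T2Space D ∧ LocallyCompactSpace D ∧ SecondCountableTopology D ∧ BorelSpace D ∧
    ∃ C : CAS X D, ∀ C' : CAS X D, C'.pr = C.pr → ¬ C'.T2 :=
  ⟨AB, AB, inferInstance, inferInstance, inferInstance, inferInstance, inferInstance,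
    inferInstance, inferInstance, inferInstance, inferInstance, inferInstance, inferInstance,
    inferInstance, grpCAS AB, fun C' h => AB_not_T2 C' h⟩

end Pool.Agent.Results.MP_466bd8_al.NoT2
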